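import Pool.Agent.Q47.TUG.Gen
import Pool.Agent.Y951.TU.Clt

/-!
# The central limit theorem for families with small exponential sums on the minor arcs
-/

set_option autoImplicit false

namespace Pool.Agent.Q47.TUG

open Finset Real MeasureTheory Filter Topology ProbabilityTheory
open Pool.Agent.Y933.KD (wd Leb WS mn cv cen cen_le cen_sum sigma2 sigma2_cen WS_cen
  measurable_WS)
open Pool.Agent.Y933.KE (TW clt_TW)
open Pool.Agent.Y951.TU

variable {r : ℕ} {ι : Type}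

open Classical in
/-- the laws -/
noncomputable def PTg (α : Fin r → ℝ) (f : ℕ → Finset ι × (ι → ℤ) × (ι → Fin r → ℝ))
    (b : Fin r → ℕ) (s : ℕ → Fin r → ℕ) (J : ℕ → ℕ) (M : ℕ) : Measure ℝ :=
  if (f M).1.Nonempty then (unif (f M).1 (pt α (f M).2.1 (f M).2.2)).map (Psi b (J M) (s M))
  else Leb

lemma PTg_prob (α : Fin r → ℝ) (f : ℕ → Finset ι × (ι → ℤ) × (ι → Fin r → ℝ))
    (b : Fin r → ℕ) (s : ℕ → Fin r → ℕ) (J : ℕ → ℕ) (M : ℕ) :
    IsProbabilityMeasure (PTg α f b s J M) := by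
  unfold PTg
  split_ifs with h
  · have := unif_prob h (pt α (f M).2.1 (f M).2.2)
    exact Measure.isProbabilityMeasure_map (measurable_Psi b _ _).aemeasurable
  · infer_instance

/-- **the central limit theorem** -/
theorem clt_gen (α : Fin r → ℝ) (halg : ∀ j, IsAlgebraic ℚ (α j))
    (hind : ∀ c : Fin r → ℤ, c ≠ 0 → Irrational (∑ j, c j * α j)) {b : Fin r → ℕ}
    (hb : ∀ j, 1 ≤ b j) {w : ℕ} (hw : 1 ≤ w) (G : (Fin r → ℕ) → ℝ)
    (hG : 0 < cvT b w G 0 + 2 * ∑ h ∈ Finset.Ico 1 w, cvT b w G h) (A : ℝ)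
    (f : ℕ → Finset ι × (ι → ℤ) × (ι → Fin r → ℝ))
    (hf : ∀ κ : ℝ, 0 < κ → ∃ κ' : ℝ, 0 < κ' ∧ ∃ M0 : ℕ, Minor (fun M => {f M}) κ κ' M0)
    (hne : ∀ᶠ M in atTop, (f M).1.Nonempty)
    (s : ℕ → Fin r → ℕ) (N : ℕ → ℕ) (hr : 1 ≤ r) (hN : Tendsto N atTop atTop)
    (hsN : ∀ᶠ M : ℕ in atTop, ∀ j, (s M j : ℝ) + N M ≤ A * log M) (a : ℝ) :
    Tendsto (fun M : ℕ => (({m ∈ (f M).1 |
      ∑ i ∈ range (N M), G (tw b w (fun j => s M j + i) (pt α (f M).2.1 (f M).2.2 m)) -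
        N M * mnT b w G ≤
        a * √((cvT b w G 0 + 2 * ∑ h ∈ Finset.Ico 1 w, cvT b w G h) * N M)}).card : ℝ) /
        (f M).1.card) atTop
      (𝓝 ((gaussianReal 0 1).real (Set.Iic a))) := by
  classical
  have hq : 1 ≤ ∏ j, b j := prod_pos' hb
  set J : ℕ → ℕ := fun M => ⌈(A + 1) * log (M : ℝ)⌉₊ with hJ
  have hsig : sigma2 (∏ j, b j) w (cen (∏ j, b j) w (FM b w G)) =
      cvT b w G 0 + 2 * ∑ h ∈ Finset.Ico 1 w, cvT b w G h := by
    rw [sigma2_cen hq]
    simp only [cv_FM hb]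
  have hprob : ∀ M, IsProbabilityMeasure (PTg α f b s J M) := PTg_prob α f b s J
  have key := clt_TW (G := cen (∏ j, b j) w (FM b w G)) hq hw (cen_le _ w _) (cen_sum hq _)
    (by rw [hsig]; exact hG)
    (fun M _ P hP => SXg_prob α (fun M => {f M}) b A (A + 1) M P hP)
    (fun k => by
      obtain ⟨κ, hκ, h1⟩ := TW_gen (ι := ι) α halg hind hb A (A + 1) k
      obtain ⟨κ', hκ', M0, h2⟩ := hf κ hκ
      exact h1 _ κ' M0 hκ' h2) (PTg α f b s J) (by
      filter_upwards [hsN, hne] with M hM hM1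
      unfold PTg
      rw [if_pos hM1]
      exact ⟨_, ⟨f M, rfl, hM1, rfl⟩, s M, J M, fun j => by
        have h1 := hM j
        have h2 : (0 : ℝ) ≤ N M := Nat.cast_nonneg _
        linarith, Nat.le_ceil _, rfl⟩) (fun _ => 0) N hN (by
      filter_upwards [hsN] with M hM
      have h1 := hM ⟨0, hr⟩
      have h2 : (0 : ℝ) ≤ s M ⟨0, hr⟩ := Nat.cast_nonneg _
      push_cast
      linarith) a
  refine key.congr' ?_
  have hlog : Tendsto (fun M : ℕ => log (M : ℝ)) atTop atTop :=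
    Real.tendsto_log_atTop.comp tendsto_natCast_atTop_atTop
  filter_upwards [hsN, hne, hlog.eventually_ge_atTop (w : ℝ)] with M hM hM1 hMw
  have hmeas : MeasurableSet {z | WS (∏ j, b j) w (cen (∏ j, b j) w (FM b w G)) 0 (N M) z ≤
      a * √(sigma2 (∏ j, b j) w (cen (∏ j, b j) w (FM b w G)) * N M)} :=
    measurableSet_le (measurable_WS _ _ _ _ _) measurable_const
  unfold PTg
  rw [if_pos hM1, map_measureReal_apply (measurable_Psi b _ _) hmeas,
    real_unif _ _ (measurable_Psi b _ _ hmeas)]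
  congr 2
  apply congrArg Finset.card
  refine filter_congr fun m _ => ?_
  simp only [Set.mem_preimage, Set.mem_ofPred_eq]
  rw [WS_cen hq, hsig, mn_FM hb]
  have h3 : ∑ i ∈ range (N M), FM b w G (wd (∏ j, b j) w (0 + i) (Psi b (J M) (s M)
      (pt α (f M).2.1 (f M).2.2 m))) = ∑ i ∈ range (N M), G (tw b w (fun j => s M j + i)
        (pt α (f M).2.1 (f M).2.2 m)) := by
    refine sum_congr rfl fun i hi => ?_
    rw [mem_range] at hi
    have h4 : i + w ≤ J M := by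
      have h5 : ((i + w : ℕ) : ℝ) ≤ J M := by
        push_cast
        have h6 : (i : ℝ) ≤ N M := by exact_mod_cast hi.le
        have h7 := hM ⟨0, hr⟩
        have h8 : (0 : ℝ) ≤ s M ⟨0, hr⟩ := Nat.cast_nonneg _
        calc (i : ℝ) + w ≤ A * log M + log M := by linarith
          _ = (A + 1) * log M := by ring
          _ ≤ J M := Nat.le_ceil _
      exact_mod_cast h5
    rw [zero_add, wd_Psi hb h4, FM_mix hb]
    exact mem_words.2 (tw_lt hb _ _ _)
  rw [h3]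

end Pool.Agent.Q47.TUG
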