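import Pool.Agent.Y951.TU.Norm

/-!
# Digit tests for tuples of algebraic numbers multiplied by the members of a family of integers with
small exponential sums on the minor arcs (after helper951)
-/

set_option autoImplicit false

namespace Pool.Agent.Q47.TUG

open Finset Real MeasureTheory Filter Topology
open Pool.Agent.Y933.KD (e e_zero e_add norm_e e_sum Leb wd measurable_wd WS ci WS_ci)
open Pool.Agent.Y933.KE (TW normal_TW WE WE_empty measurableSet_WE)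
open Pool.Agent.TH419.WI (Smooth)
open Pool.Agent.Y951.TU
open scoped ENNReal

variable {r : ℕ} {ι : Type}

/-- a family: for every `M` a set of triples of a finite set, integers and shifts -/
abbrev Fami (ι : Type) (r : ℕ) : Type := ℕ → Set (Finset ι × (ι → ℤ) × (ι → Fin r → ℝ))

/-- small exponential sums on the minor arcs -/
def Minor (F : Fami ι r) (κ κ' : ℝ) (M0 : ℕ) : Prop :=
  ∀ M : ℕ, M0 ≤ M → ∀ f ∈ F M, ∀ (l : Fin r → ℤ) (θ : ℝ),
    (∀ u : ℕ, 1 ≤ u → (u:ℝ) ≤ (M:ℝ)^κ → ∀ t : ℤ, (M:ℝ)^(-(1/2) : ℝ) ≤ |u * θ - t|) →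
    ‖∑ i ∈ f.1, e (lin r l (f.2.2 i) + f.2.1 i * θ)‖ ≤ f.1.card * (M:ℝ)^(-κ')

/-- the points -/
noncomputable def pt (α : Fin r → ℝ) (a : ι → ℤ) (y : ι → Fin r → ℝ) (i : ι) : Fin r → ℝ :=
  fun j => a i * α j + y i j

/-- the measures of the problem -/
def SG (α : Fin r → ℝ) (F : Fami ι r) (M : ℕ) : Set (Measure (Fin r → ℝ)) :=
  {P | ∃ f ∈ F M, f.1.Nonempty ∧ P = unif f.1 (pt α f.2.1 f.2.2)}

lemma SG_prob (α : Fin r → ℝ) (F : Fami ι r) (M : ℕ) (P : Measure (Fin r → ℝ))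
    (hP : P ∈ SG α F M) : IsProbabilityMeasure P := by
  obtain ⟨f, _, hf, rfl⟩ := hP
  exact unif_prob hf _

lemma hat_pt (α : Fin r → ℝ) (s : Finset ι) (a : ι → ℤ) (y : ι → Fin r → ℝ) (l : Fin r → ℤ) :
    hat (lin r) (unif s (pt α a y)) l =
      (1 / s.card) * ∑ i ∈ s, e (lin r l (y i) + a i * ∑ j, l j * α j) := by
  unfold hat
  rw [integral_unif]
  congr 1
  refine sum_congr rfl fun i _ => ?_
  congr 1
  rw [lin_apply, lin_apply, mul_sum, ← sum_add_distrib]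
  refine sum_congr rfl fun j _ => ?_
  unfold pt
  ring

/-- small Fourier coefficients -/
theorem good_gen (α : Fin r → ℝ) (halg : ∀ j, IsAlgebraic ℚ (α j))
    (hind : ∀ c : Fin r → ℤ, c ≠ 0 → Irrational (∑ j, c j * α j)) (S : Finset ℕ)
    (hS : ∀ p ∈ S, 0 < p) (k : ℕ) (A : ℝ) (hA : 0 ≤ A) :
    ∃ κ : ℝ, 0 < κ ∧ ∀ (F : Fami ι r) (κ' : ℝ) (M0 : ℕ), 0 < κ' → Minor F κ κ' M0 →
    ∃ η : ℝ, 0 < η ∧ ∃ M1 : ℕ, ∀ M : ℕ, M1 ≤ M → ∀ P ∈ SG α F M, ∀ q : Fin k → Fin r → ℤ,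
      (∀ i, q i ∈ Fr r S A η M) → ∀ h : Fin k → ℤ, (∀ i, |(h i : ℝ)| ≤ (M : ℝ) ^ η) →
      ∑ i, h i • q i ≠ 0 → ‖hat (lin r) P (∑ i, h i • q i)‖ ≤ (M : ℝ) ^ (-η) := by
  obtain ⟨η0, hη0, L0, hL0⟩ := dioph α halg S hS k A (1 / 2) hA (by norm_num)
  refine ⟨η0 / 2, by positivity, fun F κ' M0 hκ' hF => ?_⟩
  refine ⟨min (η0 / 2) κ', by positivity, max M0 (⌈exp |L0|⌉₊ + 1), ?_⟩
  intro M hM P hP q hq h hh hne
  obtain ⟨f, hfF, hfne, rfl⟩ := hP
  have hM0 : M0 ≤ M := (le_max_left _ _).trans hM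
  have hM2 : ⌈exp |L0|⌉₊ + 1 ≤ M := (le_max_right _ _).trans hM
  have hM1 : 1 ≤ M := by omega
  have hMR : (1 : ℝ) ≤ M := by exact_mod_cast hM1
  have hMp : (0 : ℝ) < M := by linarith
  have hlog : |L0| ≤ log M := by
    rw [← Real.log_exp |L0|]
    apply Real.log_le_log (exp_pos _)
    calc exp |L0| ≤ (⌈exp |L0|⌉₊ : ℝ) := Nat.le_ceil _
      _ ≤ M := by exact_mod_cast (by omega : ⌈exp |L0|⌉₊ ≤ M)
  have hpow : ∀ a : ℝ, (M : ℝ) ^ a = exp (a * log M) := fun a => by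
    rw [Real.rpow_def_of_pos hMp, mul_comm]
  choose s c hs hsA hc hcη hqe using hq
  have hsum : ∀ j, (∑ i, h i • q i) j = ∑ i, h i * (s i * c i j) := by
    intro j
    rw [Finset.sum_apply]
    refine sum_congr rfl fun i _ => ?_
    rw [Pi.smul_apply, smul_eq_mul, hqe i]
  have hirr := hind _ hne
  set θ : ℝ := ∑ j, ((∑ i, h i • q i) j : ℝ) * α j with hθ
  have hminor : ∀ u : ℕ, 1 ≤ u → (u:ℝ) ≤ (M:ℝ)^(η0/2) → ∀ t : ℤ,
      (M:ℝ)^(-(1/2) : ℝ) ≤ |u * θ - t| := by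
    intro u hu1 hu2 t
    have huθ : (u:ℝ) * θ = ∑ j, ((∑ i, ((u:ℤ) * h i) * (s i * c i j) : ℤ) : ℝ) * α j := by
      rw [hθ, mul_sum]
      refine sum_congr rfl fun j _ => ?_
      rw [hsum j, ← mul_assoc]
      congr 1
      push_cast
      rw [mul_sum]
      refine sum_congr rfl fun i _ => ?_
      ring
    have h2 := hL0 (log M) ((le_abs_self _).trans hlog) s c (fun i => (u:ℤ) * h i) t hs
      (fun i => by rw [← hpow]; exact hsA i) (fun i => by
        rw [← hpow]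
        push_cast
        rw [abs_mul, abs_of_nonneg (Nat.cast_nonneg u)]
        calc (u:ℝ) * |(h i : ℝ)| ≤ (M:ℝ)^(η0/2) * (M:ℝ)^(η0/2) := by
              gcongr
              exact (hh i).trans (Real.rpow_le_rpow_of_exponent_le hMR (min_le_left _ _))
          _ = (M:ℝ)^η0 := by rw [← Real.rpow_add hMp]; congr 1; ring)
      (fun i j => by
        rw [← hpow]
        refine (hcη i j).trans (Real.rpow_le_rpow_of_exponent_le hMR ?_)
        exact (min_le_left _ _).trans (by linarith)) (by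
        rw [← huθ]
        exact hirr.natCast_mul (by omega))
    rw [← huθ] at h2
    rw [hpow]
    have e1 : -(1 / 2 : ℝ) * log M = -(1 / 2 * log M) := by ring
    rw [e1]
    exact h2.le
  have h3 := hF M hM0 f hfF (∑ i, h i • q i) θ hminor
  rw [hat_pt, norm_mul]
  have hcard : (0:ℝ) < f.1.card := by exact_mod_cast Finset.card_pos.2 hfne
  have h4 : ‖(1 / (f.1.card : ℂ))‖ = 1 / (f.1.card : ℝ) := by simp
  rw [h4]
  calc 1 / (f.1.card : ℝ) * ‖∑ i ∈ f.1, e (lin r (∑ i, h i • q i) (f.2.2 i) +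
        f.2.1 i * ∑ j, ((∑ i, h i • q i) j : ℝ) * α j)‖
      ≤ 1 / (f.1.card : ℝ) * (f.1.card * (M:ℝ)^(-κ')) := by
        gcongr
    _ = (M:ℝ)^(-κ') := by field_simp
    _ ≤ _ := Real.rpow_le_rpow_of_exponent_le hMR (by
        have := min_le_right (η0 / 2) κ'
        linarith)

/-- **digit tests** -/
theorem tests_gen (α : Fin r → ℝ) (halg : ∀ j, IsAlgebraic ℚ (α j))
    (hind : ∀ c : Fin r → ℤ, c ≠ 0 → Irrational (∑ j, c j * α j)) (S : Finset ℕ)
    (hS : ∀ p ∈ S, 0 < p) (k : ℕ) (A : ℝ) :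
    ∃ κ : ℝ, 0 < κ ∧ ∀ (F : Fami ι r) (κ' : ℝ) (M0 : ℕ), 0 < κ' → Minor F κ κ' M0 →
    ∃ δ : ℝ, 0 < δ ∧ ∃ C : ℝ, ∀ M : ℕ, 1 ≤ M → ∀ P ∈ SG α F M, ∀ q : Fin k → Fin r → ℤ,
      (∀ i, q i ∈ Fr r S A δ M) → ∀ u v : Fin k → ℝ, (∀ i, 0 ≤ u i) → (∀ i, v i ≤ 1) →
      |P.real (Ev (lin r) q u v) - (Cube r).real (Ev (lin r) q u v)| ≤ C * (M : ℝ) ^ (-δ) := by
  obtain ⟨κ, hκ, hgood⟩ := good_gen (ι := ι) α halg hind S hS k (max A 0) (le_max_right _ _)
  refine ⟨κ, hκ, fun F κ' M0 hκ' hF => ?_⟩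
  obtain ⟨η, hη, M1, hM1⟩ := hgood F κ' M0 hκ' hF
  obtain ⟨δ, hδ, hδη, C, hC⟩ := power (φ := lin r) measurable_lin (Cube r) hat_Cube k
    (S := SG α F) (T := fun M => Fr r S (max A 0) η M) (fun M q hq h hh => Fr_ne M q hq h hh)
    (fun M _ P hP => SG_prob α F M P hP) hη M1 hM1
  refine ⟨δ, hδ, C, fun M hM P hP q hq u v hu hv => hC M hM P hP q (fun i => ?_) u v hu hv⟩
  obtain ⟨s, c, h1, h2, h3, h4, h5⟩ := hq i
  have hMR : (1 : ℝ) ≤ M := by exact_mod_cast hM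
  exact ⟨s, c, h1, h2.trans (Real.rpow_le_rpow_of_exponent_le hMR (le_max_left _ _)), h3,
    fun j => (h4 j).trans (Real.rpow_le_rpow_of_exponent_le hMR hδη), h5⟩

/-- the measures on the line -/
def SXg (α : Fin r → ℝ) (F : Fami ι r) (b : Fin r → ℕ) (A0 A1 : ℝ) (M : ℕ) : Set (Measure ℝ) :=
  {P' | ∃ P ∈ SG α F M, ∃ (s : Fin r → ℕ) (J : ℕ), (∀ j, (s j : ℝ) ≤ A0 * log M) ∧
    A1 * log M ≤ J ∧ P' = P.map (Psi b J s)}

lemma SXg_prob (α : Fin r → ℝ) (F : Fami ι r) (b : Fin r → ℕ) (A0 A1 : ℝ) (M : ℕ)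
    (P' : Measure ℝ) (hP : P' ∈ SXg α F b A0 A1 M) : IsProbabilityMeasure P' := by
  obtain ⟨P, hP, s, J, _, _, rfl⟩ := hP
  have := SG_prob α F M P hP
  exact Measure.isProbabilityMeasure_map (measurable_Psi b J s).aemeasurable

theorem TW_gen (α : Fin r → ℝ) (halg : ∀ j, IsAlgebraic ℚ (α j))
    (hind : ∀ c : Fin r → ℤ, c ≠ 0 → Irrational (∑ j, c j * α j)) {b : Fin r → ℕ}
    (hb : ∀ j, 1 ≤ b j) (A0 A1 : ℝ) (k : ℕ) :
    ∃ κ : ℝ, 0 < κ ∧ ∀ (F : Fami ι r) (κ' : ℝ) (M0 : ℕ), 0 < κ' → Minor F κ κ' M0 →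
      TW (∏ j, b j) k A1 (SXg α F b A0 A1) := by
  obtain ⟨B, hB⟩ := exists_ge (fun j => (b j : ℝ))
  set B1 : ℝ := max B 1 with hB1
  have hB1' : 1 ≤ B1 := le_max_right _ _
  have hbB : ∀ j, (b j : ℝ) ≤ B1 := fun j => (hB j).trans (le_max_left _ _)
  obtain ⟨κ, hκ, htests⟩ := tests_gen (ι := ι) α halg hind
    (Finset.univ.biUnion fun j => (b j).primeFactors)
    (fun p hp => by
      rw [mem_biUnion] at hp
      obtain ⟨j, _, hj⟩ := hp
      exact (Nat.prime_of_mem_primeFactors hj).pos) (k * r) ((|A0| + |A1|) * log B1)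
  refine ⟨κ, hκ, fun F κ' M0 hκ' hF => ?_⟩
  obtain ⟨δ, hδ, C, hC⟩ := htests F κ' M0 hκ' hF
  refine ⟨δ, hδ, |C|, fun M hM P' hP' n w c hn => ?_⟩
  obtain ⟨P, hP, s, J, hs, hJ, rfl⟩ := hP'
  have := SG_prob α F M P hP
  have hprob := Measure.isProbabilityMeasure_map (μ := P) (measurable_Psi b J s).aemeasurable
  have hq : 1 ≤ ∏ j, b j := prod_pos' hb
  have hMR : (1 : ℝ) ≤ M := by exact_mod_cast hM
  have hMp : (0 : ℝ) < M := by linarith
  have hlog0 : 0 ≤ log (M : ℝ) := Real.log_nonneg hMR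
  have hM0 : 0 ≤ (M : ℝ) ^ (-δ) := by positivity
  have hnJ : ∀ i, n i + w i ≤ J := fun i => by
    have := (hn i).trans hJ
    exact_mod_cast this
  by_cases hc : ∃ i, (∏ j, b j) ^ w i ≤ c i
  · obtain ⟨i, hi⟩ := hc
    rw [WE_empty hq hi, measureReal_empty, measureReal_empty, sub_self, abs_zero]
    positivity
  push Not at hc
  choose V hV hV2 using fun i => mix_surj hb (w i) (c i) (hc i)
  rw [← Cube_WE hb s n w c, map_measureReal_apply (measurable_Psi b J s) (measurableSet_WE _ _ _ _)]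
  have h1 : Psi b J s ⁻¹' WE (∏ j, b j) n w c =
      {x | ∀ i, mix b (w i) (tw b (w i) (fun j => s j + n i) x) = c i} := by
    ext x
    unfold WE
    simp only [Set.mem_preimage, Set.mem_ofPred_eq]
    exact forall_congr' fun i => by rw [wd_Psi hb (hnJ i)]
  have h2 : {x : Fin r → ℝ | ∀ i, mix b (w i) (tw b (w i) (fun j => s j + n i) x) = c i} =
      {x | ∀ i, tw b (w i) (fun j => s j + n i) x = V i} := by
    ext x
    simp only [Set.mem_ofPred_eq]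
    refine forall_congr' fun i => ?_
    rw [← hV2 i]
    constructor
    · intro h
      exact mix_inj hb (w i) _ _ (tw_lt hb _ _ _) (hV i) h
    · intro h
      rw [h]
  rw [h1, h2, Ev_tq hb]
  refine (hC M hM P hP _ (fun p => ?_) _ _ (fun p => by positivity) (fun p => ?_)).trans ?_
  · refine ⟨b (finProdFinEquiv.symm p).2 ^ (s (finProdFinEquiv.symm p).2 +
      n (finProdFinEquiv.symm p).1), Pi.single (finProdFinEquiv.symm p).2 1, ⟨?_, ?_⟩, ?_, ?_, ?_,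
      rfl⟩
    · exact pow_ne_zero _ (Nat.pos_iff_ne_zero.1 (hb _))
    · intro p' hp'
      rw [mem_biUnion]
      refine ⟨(finProdFinEquiv.symm p).2, mem_univ _, ?_⟩
      rw [Nat.mem_primeFactors] at hp' ⊢
      exact ⟨hp'.1, hp'.1.dvd_of_dvd_pow hp'.2.1, Nat.pos_iff_ne_zero.1 (hb _)⟩
    · set j := (finProdFinEquiv.symm p).2
      set i := (finProdFinEquiv.symm p).1
      have hbj : (1 : ℝ) ≤ b j := by exact_mod_cast hb j
      have h3 : ((s j + n i : ℕ) : ℝ) ≤ (|A0| + |A1|) * log M := by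
        push_cast
        have h4 : (s j : ℝ) ≤ |A0| * log M := (hs j).trans (by gcongr; exact le_abs_self _)
        have h5 : (n i : ℝ) ≤ |A1| * log M := by
          have h6 := hn i
          have h7 : (0 : ℝ) ≤ w i := Nat.cast_nonneg _
          calc (n i : ℝ) ≤ A1 * log M := by linarith
            _ ≤ |A1| * log M := by gcongr; exact le_abs_self _
        linarith
      push_cast
      calc (b j : ℝ) ^ (s j + n i) ≤ B1 ^ (s j + n i) := by gcongr; exact hbB j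
        _ = B1 ^ ((s j + n i : ℕ) : ℝ) := (Real.rpow_natCast _ _).symm
        _ ≤ B1 ^ ((|A0| + |A1|) * log M) := Real.rpow_le_rpow_of_exponent_le hB1' h3
        _ = (M : ℝ) ^ ((|A0| + |A1|) * log B1) := by
            rw [Real.rpow_def_of_pos (by linarith), Real.rpow_def_of_pos hMp]
            congr 1
            ring
    · intro h
      have := congrFun h (finProdFinEquiv.symm p).2
      simp at this
    · intro j
      have h3 : (1 : ℝ) ≤ (M : ℝ) ^ δ := Real.one_le_rpow hMR hδ.le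
      by_cases hj : j = (finProdFinEquiv.symm p).2
      · rw [hj, Pi.single_eq_same]
        simpa using h3
      · rw [Pi.single_eq_of_ne hj]
        simp only [Int.cast_zero, abs_zero]
        linarith
  · have hbj : (0 : ℝ) < b (finProdFinEquiv.symm p).2 := by
      exact_mod_cast hb (finProdFinEquiv.symm p).2
    rw [div_le_one (by positivity)]
    exact_mod_cast hV (finProdFinEquiv.symm p).1 (finProdFinEquiv.symm p).2
  · exact mul_le_mul_of_nonneg_right (le_abs_self C) (by positivity)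

open Classical in
/-- **joint normality** -/
theorem normal_gen (hr : 1 ≤ r) (α : Fin r → ℝ) (halg : ∀ j, IsAlgebraic ℚ (α j))
    (hind : ∀ c : Fin r → ℤ, c ≠ 0 → Irrational (∑ j, c j * α j)) {b : Fin r → ℕ}
    (hb : ∀ j, 2 ≤ b j) (w : ℕ) (A ε : ℝ) (hε : 0 < ε) :
    ∃ κ : ℝ, 0 < κ ∧ ∀ (F : Fami ι r) (κ' : ℝ) (M0 : ℕ), 0 < κ' → Minor F κ κ' M0 →
    ∃ c : ℝ, 0 < c ∧ ∃ M₀ : ℕ, ∀ M : ℕ, M₀ ≤ M → ∀ f ∈ F M,
      ((f.1.filter (fun m => ¬ ∀ (k : ℕ) (D s : Fin r → ℕ) (N : ℕ), 1 ≤ k → k ≤ w →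
        (∀ j, D j < b j ^ k) → (∀ j, (s j : ℝ) + N ≤ A * log M) →
        |(((range N).filter (fun i => tw b k (fun j => s j + i) (pt α f.2.1 f.2.2 m) = D)).card : ℝ) -
          N / ((∏ j, b j : ℕ) : ℝ) ^ k| ≤ ε * log M)).card : ℝ) ≤ f.1.card * (M : ℝ) ^ (-c) := by
  have hb1 : ∀ j, 1 ≤ b j := fun j => by have := hb j; omega
  obtain ⟨κ, hκ, hTW⟩ := TW_gen (ι := ι) α halg hind hb1 A (A + 1) 1
  refine ⟨κ, hκ, fun F κ' M00 hκ' hF => ?_⟩
  obtain ⟨c, hc, M0, h⟩ := normal_TW (b := ∏ j, b j) (w := max w 1) (two_le_prod hr hb)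
    (le_max_right _ _) (A := A) hε (fun M _ P hP => SXg_prob α F b A (A + 1) M P hP)
    (hTW F κ' M00 hκ' hF)
  have hrR : (0 : ℝ) < r := by exact_mod_cast hr
  set η : ℝ := c / (4 * r) with hη
  have hη0 : 0 < η := by positivity
  set C1 : ℝ := ((|A| + 1) * (1 + 1 / η)) ^ r with hC1
  have hlog : Tendsto (fun M : ℕ => log (M : ℝ)) atTop atTop :=
    Real.tendsto_log_atTop.comp tendsto_natCast_atTop_atTop
  obtain ⟨M1, hM1⟩ := eventually_atTop.1 ((hlog.eventually_ge_atTop (w : ℝ)).and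
    (Pool.Agent.Y933.KD.VdC.ev_le C1 (c / 4) (by positivity)))
  refine ⟨c / 2, by positivity, max (max M0 M1) 2, fun M hM f hf => ?_⟩
  have hM0 : M0 ≤ M := (le_max_left _ _).trans ((le_max_left _ _).trans hM)
  obtain ⟨hM2, hM3⟩ := hM1 M ((le_max_right _ _).trans ((le_max_left _ _).trans hM))
  have hM4 : 2 ≤ M := (le_max_right _ _).trans hM
  have hMR : (2 : ℝ) ≤ M := by exact_mod_cast hM4
  have hMp : (0 : ℝ) < M := by linarith
  have hM1' : (1 : ℝ) ≤ M := by linarith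
  rcases Finset.eq_empty_or_nonempty f.1 with hemp | hne
  · rw [hemp]; simp
  have hcard : (0:ℝ) < f.1.card := by exact_mod_cast Finset.card_pos.2 hne
  set t : ℝ := log M with ht
  have ht0 : 0 < t := Real.log_pos (by linarith)
  obtain ⟨U, hU, hP, hx⟩ := h M hM0
  set J : ℕ := ⌈(A + 1) * t⌉₊ with hJ
  have hJ1 : (A + 1) * t ≤ J := Nat.le_ceil _
  set P : Measure (Fin r → ℝ) := unif f.1 (pt α f.2.1 f.2.2) with hPdef
  have hPS : P ∈ SG α F M := ⟨f, hf, hne, rfl⟩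
  have hPprob := SG_prob α F M P hPS
  -- the starting places
  set T : Finset (Fin r → ℕ) := (Fintype.piFinset fun _ : Fin r => range (⌊|A| * t⌋₊ + 1)).filter
    (fun s => ∀ j, (s j : ℝ) ≤ A * t) with hT
  have hone : ∀ s ∈ T, ((f.1.filter (fun m => Psi b J s (pt α f.2.1 f.2.2 m) ∈ U)).card : ℝ) ≤
      f.1.card * (M : ℝ) ^ (-c) := by
    intro s hs
    rw [hT, mem_filter] at hs
    have h1 := hP (P.map (Psi b J s)) ⟨P, hPS, s, J, hs.2, hJ1, rfl⟩
    rw [map_measureReal_apply (measurable_Psi b J s) hU] at h1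
    rw [hPdef, real_unif _ _ (measurable_Psi b J s hU)] at h1
    rw [div_le_iff₀ hcard] at h1
    refine h1.trans (le_of_eq ?_)
    ring
  have hTcard : (T.card : ℝ) ≤ C1 * (M : ℝ) ^ (c / 4) := by
    have h1 : T.card ≤ (⌊|A| * t⌋₊ + 1) ^ r := by
      refine (card_filter_le _ _).trans (le_of_eq ?_)
      rw [Fintype.card_piFinset]
      simp
    have h2 : ((⌊|A| * t⌋₊ : ℕ) : ℝ) ≤ |A| * t := Nat.floor_le (by positivity)
    have h3 : 1 + t ≤ (1 + 1 / η) * (M : ℝ) ^ η :=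
      Pool.Agent.Y933.KD.VdC.one_add_log_le hM1' hη0
    calc (T.card : ℝ) ≤ (((⌊|A| * t⌋₊ + 1) ^ r : ℕ) : ℝ) := by exact_mod_cast h1
      _ = ((⌊|A| * t⌋₊ : ℝ) + 1) ^ r := by push_cast; ring
      _ ≤ ((|A| + 1) * (1 + t)) ^ r := by
          gcongr
          nlinarith [abs_nonneg A]
      _ ≤ ((|A| + 1) * ((1 + 1 / η) * (M : ℝ) ^ η)) ^ r := by gcongr
      _ = C1 * ((M : ℝ) ^ η) ^ r := by rw [hC1, ← mul_assoc, mul_pow]
      _ = C1 * (M : ℝ) ^ (c / 4) := by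
          rw [← Real.rpow_natCast ((M : ℝ) ^ η), ← Real.rpow_mul hMp.le]
          congr 2
          rw [hη]
          field_simp
  have hsub : f.1.filter (fun m => ¬ ∀ (k : ℕ) (D s : Fin r → ℕ) (N : ℕ), 1 ≤ k → k ≤ w →
        (∀ j, D j < b j ^ k) → (∀ j, (s j : ℝ) + N ≤ A * t) →
        |(((range N).filter (fun i => tw b k (fun j => s j + i) (pt α f.2.1 f.2.2 m) = D)).card : ℝ) -
          N / ((∏ j, b j : ℕ) : ℝ) ^ k| ≤ ε * t) ⊆
      T.biUnion fun s => f.1.filter (fun m => Psi b J s (pt α f.2.1 f.2.2 m) ∈ U) := by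
    intro m hm
    rw [mem_filter] at hm
    obtain ⟨hmb, hm⟩ := hm
    by_contra hcon
    apply hm
    intro k D s N hk hkw hD hsN
    have hsA : ∀ j, (s j : ℝ) ≤ A * t := fun j => by
      have h1 := hsN j
      have h2 : (0 : ℝ) ≤ N := Nat.cast_nonneg N
      linarith
    have hsT : s ∈ T := by
      rw [hT, mem_filter, Fintype.mem_piFinset]
      refine ⟨fun j => ?_, hsA⟩
      rw [mem_range, Nat.lt_succ_iff]
      apply Nat.le_floor
      refine (hsA j).trans ?_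
      gcongr
      exact le_abs_self A
    have hmU : Psi b J s (pt α f.2.1 f.2.2 m) ∉ U := by
      intro h1
      apply hcon
      rw [mem_biUnion]
      exact ⟨s, hsT, mem_filter.2 ⟨hmb, h1⟩⟩
    have hNA : (N : ℝ) ≤ A * t := by
      have h1 := hsN ⟨0, hr⟩
      have h2 : (0 : ℝ) ≤ s ⟨0, hr⟩ := Nat.cast_nonneg _
      linarith
    have hDm : mix b k D < (∏ j, b j) ^ k := mix_lt hb1 k D
    have h2 := hx _ hmU k (mix b k D) 0 N hk (hkw.trans (le_max_left _ _)) hDm (by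
      push_cast
      rw [zero_add]
      exact hNA)
    rw [WS_ci (prod_pos' hb1)] at h2
    have h3 : (range N).filter (fun i => wd (∏ j, b j) k (0 + i)
        (Psi b J s (pt α f.2.1 f.2.2 m)) = mix b k D) =
        (range N).filter (fun i => tw b k (fun j => s j + i) (pt α f.2.1 f.2.2 m) = D) := by
      refine filter_congr fun i hi => ?_
      rw [mem_range] at hi
      have h4 : i + k ≤ J := by
        have h5 : ((i + k : ℕ) : ℝ) ≤ J := by
          push_cast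
          have h6 : (i : ℝ) ≤ N := by exact_mod_cast hi.le
          have h7 : (k : ℝ) ≤ w := by exact_mod_cast hkw
          calc (i : ℝ) + k ≤ A * t + t := by linarith
            _ = (A + 1) * t := by ring
            _ ≤ J := hJ1
        exact_mod_cast h5
      rw [zero_add, wd_Psi hb1 h4]
      constructor
      · intro h5
        exact mix_inj hb1 k _ _ (tw_lt hb1 _ _ _) hD h5
      · intro h5
        rw [h5]
    rw [h3] at h2
    exact h2
  calc _ ≤ ((T.biUnion fun s =>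
          f.1.filter (fun m => Psi b J s (pt α f.2.1 f.2.2 m) ∈ U)).card : ℝ) :=
        Nat.cast_le.2 (card_le_card hsub)
    _ ≤ ((∑ s ∈ T, (f.1.filter (fun m => Psi b J s (pt α f.2.1 f.2.2 m) ∈ U)).card : ℕ) : ℝ) :=
        Nat.cast_le.2 card_biUnion_le
    _ = ∑ s ∈ T, ((f.1.filter (fun m => Psi b J s (pt α f.2.1 f.2.2 m) ∈ U)).card : ℝ) := by
        push_cast; rfl
    _ ≤ ∑ _s ∈ T, f.1.card * (M : ℝ) ^ (-c) := sum_le_sum hone
    _ = T.card * (f.1.card * (M : ℝ) ^ (-c)) := by rw [sum_const, nsmul_eq_mul]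
    _ ≤ (C1 * (M : ℝ) ^ (c / 4)) * (f.1.card * (M : ℝ) ^ (-c)) := by gcongr
    _ ≤ ((M : ℝ) ^ (c / 4) * (M : ℝ) ^ (c / 4)) * (f.1.card * (M : ℝ) ^ (-c)) := by gcongr
    _ = f.1.card * ((M : ℝ) ^ (c / 4) * (M : ℝ) ^ (c / 4) * (M : ℝ) ^ (-c)) := by ring
    _ = f.1.card * (M : ℝ) ^ (-(c / 2)) := by
        rw [← Real.rpow_add hMp, ← Real.rpow_add hMp]
        congr 2
        ring

end Pool.Agent.Q47.TUG
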