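import Pool.Agent.Q47.TUG.Gen
import Pool.Agent.Q47.DG.Kap

/-!
# Two families with small exponential sums on the minor arcs: the primes, and the products of two
dense sets
-/

set_option autoImplicit false

namespace Pool.Agent.Q47.TUG

open Finset Real
open Pool.Agent.Y933.KD (e e_zero e_add norm_e e_sum)
open Pool.Agent.Y951.TU
open Pool.Agent.H807R2.Dav (ee ee_add norm_ee)

variable {r : ℕ}

lemma e_eq_ee (t : ℝ) : e t = ee t := by
  unfold e ee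
  congr 1
  push_cast
  ring

/-- the primes up to `M`, with all shifts -/
def primeFam (r : ℕ) : Fami ℕ r := fun M =>
  {f | ∃ y : Fin r → ℝ, f = ({p ∈ Icc 1 M | p.Prime}, fun p : ℕ => (p:ℤ), fun _ : ℕ => y)}

lemma prime_Minor (κ : ℝ) (hκ : 0 < κ) :
    ∃ κ' : ℝ, 0 < κ' ∧ ∃ M0 : ℕ, Minor (primeFam r) κ κ' M0 := by
  obtain ⟨X0, h⟩ := Pool.Agent.Q47.DG.prime_minor_k (min κ (1/5)) (by positivity) (min_le_right _ _)
  refine ⟨min κ (1/5) / 8, by positivity, max X0 1, ?_⟩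
  intro M hM f hf l θ hθ
  obtain ⟨y, rfl⟩ := hf
  have hM1 : (1:ℝ) ≤ M := by exact_mod_cast (le_max_right _ _).trans hM
  have h1 := h M ((le_max_left _ _).trans hM) θ (fun u hu1 hu2 t => hθ u hu1
    (hu2.trans (Real.rpow_le_rpow_of_exponent_le hM1 (min_le_left _ _))) t)
  have e1 : ∑ p ∈ Icc 1 M with p.Prime, e (lin r l y + ((p:ℤ):ℝ) * θ) =
      e (lin r l y) * ∑ p ∈ Icc 1 M with p.Prime, ee ((p:ℝ) * θ) := by
    rw [Finset.mul_sum]
    apply Finset.sum_congr rfl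
    intro p _
    rw [e_add, e_eq_ee (((p:ℤ):ℝ) * θ)]
    push_cast; rfl
  simp only
  rw [e1, norm_mul, norm_e, one_mul]
  exact h1

/-- the products of two dense sets, with all shifts `u a + v c` -/
def prodFam (r : ℕ) (δ : ℝ) : Fami (ℕ × ℕ) r := fun M =>
  {f | ∃ P Q : Finset ℕ, (∀ a ∈ P, 1 ≤ a ∧ a ≤ M) ∧ (∀ c ∈ Q, 1 ≤ c ∧ c ≤ M) ∧
    (M:ℝ) ^ (2 - δ) ≤ (#P:ℝ) * #Q ∧ ∃ u v : ℕ → Fin r → ℝ,
    f = (P ×ˢ Q, fun i : ℕ × ℕ => ((i.1 * i.2 : ℕ) : ℤ), fun i : ℕ × ℕ => u i.1 + v i.2)}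

lemma lin_add (l : Fin r → ℤ) (x y : Fin r → ℝ) : lin r l (x + y) = lin r l x + lin r l y := by
  rw [lin_apply, lin_apply, lin_apply, ← sum_add_distrib]
  refine sum_congr rfl fun j _ => ?_
  rw [Pi.add_apply]; ring

lemma prod_Minor (κ : ℝ) (hκ : 0 < κ) :
    ∃ κ' : ℝ, 0 < κ' ∧ ∃ δ : ℝ, 0 < δ ∧ ∀ δ' ≤ δ, ∃ M0 : ℕ,
      Minor (prodFam r δ') κ κ' M0 := by
  obtain ⟨X0, h⟩ := Pool.Agent.Q47.DG.product_minor_k (min κ (1/5)) (by positivity)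
    (min_le_right _ _)
  refine ⟨min κ (1/5) / 8, by positivity, min κ (1/5) / 4, by positivity, fun δ' hδ' =>
    ⟨max X0 1, ?_⟩⟩
  intro M hM f hf l θ hθ
  obtain ⟨P, Q, hP, hQ, hPQ, u, v, rfl⟩ := hf
  have hM1 : (1:ℝ) ≤ M := by exact_mod_cast (le_max_right _ _).trans hM
  have h1 := h M ((le_max_left _ _).trans hM) P Q hP hQ
    ((Real.rpow_le_rpow_of_exponent_le hM1 (by linarith)).trans hPQ)
    (fun a => ee (lin r l (u a))) (fun a => ee (lin r l (v a)))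
    (fun a => (norm_ee _).le) (fun a => (norm_ee _).le) θ (fun w hu1 hu2 t => hθ w hu1
    (hu2.trans (Real.rpow_le_rpow_of_exponent_le hM1 (min_le_left _ _))) t)
  have e1 : ∑ i ∈ P ×ˢ Q, e (lin r l (u i.1 + v i.2) + (((i.1 * i.2 : ℕ) : ℤ) : ℝ) * θ) =
      ∑ i ∈ P ×ˢ Q, ee (lin r l (u i.1)) * ee (lin r l (v i.2)) * ee ((i.1 * i.2 : ℕ) * θ) := by
    apply Finset.sum_congr rfl
    intro i _
    rw [e_eq_ee, ← ee_add, ← ee_add, lin_add]
    push_cast; rfl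
  simp only
  rw [e1, card_product, Nat.cast_mul]
  exact h1

end Pool.Agent.Q47.TUG
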